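import Pool.Agent.N166.MU.Stm

/-!
# Numerical and homological equivalence on products with constant abelian varieties: statements
-/

set_option autoImplicit false

open CategoryTheory AlgebraicGeometry Polynomial

universe u v w

namespace Pool.Agent.N166.DF

open Pool.Agent.H914 Pool.Agent.H914.VarClass Pool.Agent.H914.VarClass.Obj Pool.Agent.W492.BB
  Pool.Agent.W484.CK Pool.Agent.N166.MU

section

variable {k : Type u} [Field k] {𝒱 : VarClass k} {C : TheoryData.{u, v, 0} 𝒱 ℚ} {K : Type w}
  [Field K] (H : WeilTheoryData.{u, v, w} C K)

/-- The situation of the theorem over the finite field: `πA` is the Frobenius endomorphism of an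
abelian variety `A` over the field with `q ^ s` elements, isogenous to a product of powers of abelian
varieties coming from the field with `q` elements with characteristic polynomials of Frobenius
`f i`; `Y` is any variety over the field with `q ^ s` elements, such that the eigenvalues of its
Frobenius endomorphism `πY` on the cohomology lie up to powers in a group generated by the elements
of the number field `E` and `r` numbers; and `πA × πY` acts on the Chow groups of `A × Y` in the
usual way. -/
structure IsBase [CharZero K] (E : IntermediateField ℚ ℂ) (q r s : ℕ) {I : Type} (f : I → ℤ[X])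
    {A Y : 𝒱.Obj} (πA : A ⟶ A) (πY : Y ⟶ Y) : Prop where
  standard : IsStandard H
  normalized : IsNormalized C
  pos : 0 < s
  abelian : IsAbelian H πA q s f
  rank : EigenvaluesOfRank H E r πY
  frobenius : IsFrobenius C (prodMap πA πY) (q ^ s)

/-- Numerical and homological equivalence coincide on cycles of codimension `i` on `X`, with
rational coefficients. -/
def NumEqHom (X : 𝒱.Obj) (i : ℕ) : Prop :=
  ∀ x : C.A X, C.Deg i x → (∀ w : C.A X, C.Deg ((X.dim : ℤ) - i) w → HasDeg C (C.mul x w) 0) →
    H.cl x = 0

/-- `NumHomForRankOver E q r f`: the following holds for the Chow groups `C` with rational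
coefficients of all classes `𝒱` of varieties over fields `k` (finite, in the intended use), every
Weil cohomology theory `H` with coefficients in an algebraically closed field `K` of characteristic
zero, every `s` and all varieties `A` and `Y` as in `IsBase`.

Let `k'` be a field (in the intended use the function field of a variety `S` over `k`), `C'` the
Chow groups with rational coefficients of a class of varieties over `k'`, `H'` a Weil cohomology
theory, and let `A'` and `Z` be varieties over `k'`, the generic fibres of `A × S` and of a morphism
from `Y` to `S`, such that the restriction of cycles on `A × Y` to the generic fibre respects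
homological equivalence. Then there are finitely many products `D a` of `deg a` divisor classes on
`A'` such that every class in `CH^i(A' × Z)` is homologically equivalent to a sum of classes
`D a × z a` with `z a` in `CH^(i - deg a)(Z)`, and, for all `i`, numerical and homological
equivalence coincide on cycles of codimension `i` on `A' × Z` if and only if they coincide on cycles
of codimension `m` on `Z` for all `m` with `i - dim A' ≤ m ≤ i`. -/
def NumHomForRankOver (E : IntermediateField ℚ ℂ) (q r : ℕ) {I : Type} (f : I → ℤ[X]) : Prop :=
  ∀ (k : Type) [Field k] (𝒱 : VarClass k) (C : TheoryData.{0, 0, 0} 𝒱 ℚ) [IsChow C]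
    (K : Type) [Field K] [IsAlgClosed K] [CharZero K] (H : WeilTheoryData.{0, 0, 0} C K) [IsWeil H]
    (s : ℕ) (A Y : 𝒱.Obj) (πA : A ⟶ A) (πY : Y ⟶ Y), IsBase H E q r s f πA πY →
  ∀ (k' : Type) [Field k'] (𝒱' : VarClass k') (C' : TheoryData.{0, 0, 0} 𝒱' ℚ) [IsChow C']
    (K' : Type) [Field K'] (H' : WeilTheoryData.{0, 0, 0} C' K') [IsWeil H'] (A' Z : 𝒱'.Obj)
    (α : C.A A → C'.A A') (β : C.A Y → C'.A Z) (γ : C.A (A.prod Y) → C'.A (A'.prod Z)),
    IsNormalized C' → IsStandard H' → IsTopOriented H' → IsGenericFibre C C' α β γ →
    (∀ x, H.cl x = 0 → H'.cl (γ x) = 0) →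
    (∃ (J : Type) (_ : Fintype J) (deg : J → ℕ) (D : J → C'.A A'),
      (∀ j, DivisorProduct C' (deg j) (D j)) ∧
      ∀ (i : ℤ) (x : C'.A (A'.prod Z)), C'.Deg i x → ∃ z : J → C'.A Z,
        (∀ j, C'.Deg (i - deg j) (z j)) ∧ H'.cl x = H'.cl (∑ j, times C' (D j) (z j))) ∧
    ∀ i : ℕ, NumEqHom H' (A'.prod Z) i ↔
      ∀ m : ℕ, m ≤ i → i ≤ m + A'.dim → NumEqHom H' Z m

end

end Pool.Agent.N166.DF
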