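import Pool.Agent.N166.MU.Core
import Pool.Agent.N166.DF.Stm

/-!
# Numerical and homological equivalence on products: the cycles
-/

set_option autoImplicit false
set_option linter.unusedSectionVars false

open CategoryTheory AlgebraicGeometry Polynomial

universe u v w

namespace Pool.Agent.N166.DF

open Pool.Agent.H914 Pool.Agent.H914.VarClass Pool.Agent.H914.VarClass.Obj Pool.Agent.W492.BB
  Pool.Agent.W550.Corr Pool.Agent.TH133 Pool.Agent.N166.MU

variable {k : Type u} [Field k] {𝒱 : VarClass k} {C : TheoryData.{u, v, 0} 𝒱 ℚ}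
  [hC : IsChowProj C] {K : Type w} [Field K] (H : WeilTheoryData.{u, v, w} C K)
  [hH : IsWeilProj H] {A Z : 𝒱.Obj} {J : Type} [Fintype J] {deg : J → ℕ} {D E : J → C.A A}

/-- Cycles `D j` on `A` with dual cycles `E j` such that the Chow groups of `A × Z` are generated
by those of `Z` modulo homological equivalence. -/
structure GenHom (H : WeilTheoryData.{u, v, w} C K) (A Z : 𝒱.Obj) {J : Type} [Fintype J]
    (deg : J → ℕ) (D E : J → C.A A) : Prop where
  left : ∀ j, C.Deg (deg j) (D j)
  right : ∀ j, C.Deg ((A.dim : ℤ) - deg j) (E j)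
  eq : ∀ j, HasDegree C (D j * E j) 1
  ne : ∀ i j, i ≠ j → HasDegree C (D i * E j) 0
  gen : ∀ (i : ℤ) (x : C.A (A.prod Z)), C.Deg i x → ∃ z : J → C.A Z,
    (∀ j, C.Deg (i - deg j) (z j)) ∧ H.cl x = H.cl (∑ j, C.ext (D j) (z j))

lemma cl_coef (a : C.A A) (x : C.A (A.prod Z)) :
    H.cl (coef a x) = H.push (snd A Z) (H.pull (fst A Z) (H.cl a) * H.cl x) := by
  rw [coef, H.cl_push, map_mul, H.cl_pull]

/-- Push-forwards preserve degrees. -/
lemma hasDegree_push {y : C.A (A.prod Z)} {q : ℚ}
    (h : HasDegree C y q) : HasDegree C (C.push (snd A Z) y) q := by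
  intro Y
  constructor
  · have e1 : prodMap (snd A Z) (𝟙 Y) ≫ snd Z Y = snd (A.prod Z) Y := by simp
    rw [C.base_fst, ← C.push_comp, e1]
    exact (h Y).1
  · have e1 : prodMap (𝟙 Y) (snd A Z) ≫ fst Y Z = fst Y (A.prod Z) := by simp
    rw [C.base_snd, ← C.push_comp, e1]
    exact (h Y).2

variable (hG : GenHom H A Z deg D E)

include hG hH

lemma coef_gen (z : J → C.A Z) (j : J) : coef (E j) (∑ i, C.ext (D i) (z i)) = z j := by
  classical
  rw [coef_sum, Finset.sum_eq_single j]
  · rw [coef_ext (hG.eq j), one_smul]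
  · intro i _ hij
    rw [coef_ext (hG.ne i j hij), zero_smul]
  · intro h
    exact absurd (Finset.mem_univ j) h

lemma coef_mem' {i : ℤ} {x : C.A (A.prod Z)} (hx : C.Deg i x) (j : J) :
    C.Deg (i - deg j) (coef (E j) x) := coef_mem (hG.right j) hx (by ring)

/-- The expansion of a class. -/
lemma expand {i : ℤ} {x : C.A (A.prod Z)} (hx : C.Deg i x) :
    H.cl x = H.cl (∑ j, C.ext (D j) (coef (E j) x)) := by
  obtain ⟨z, hz, h1⟩ := hG.gen i x hx
  have h2 : ∀ j, H.cl (coef (E j) x) = H.cl (z j) := by
    intro j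
    rw [cl_coef, h1, ← cl_coef, coef_gen H hG]
  rw [h1, map_sum, map_sum]
  refine Finset.sum_congr rfl fun j _ => ?_
  rw [TheoryData.ext, TheoryData.ext, map_mul, map_mul, H.cl_pull, H.cl_pull, H.cl_pull, h2]

omit hG in
/-- The degree of a product with an external product. -/
lemma degree_mul_ext {i c : ℤ} {a : C.A A} (ha : C.Deg c a) {z : C.A Z} (hz : C.Deg i z)
    {x : C.A (A.prod Z)} (hx : C.Deg ((A.prod Z).dim - i - c) x) {q : ℚ} :
    HasDegree C (C.ext a z * x) q ↔ HasDegree C (z * coef a x) q := by
  have hm : C.Deg (A.prod Z).dim (C.ext a z * x) := by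
    have := C.mul_mem (ext_mem' (C := C) ha hz) hx
    have e : c + i + ((A.prod Z).dim - i - c : ℤ) = (A.prod Z).dim := by ring
    rwa [e] at this
  have h1 : C.push (snd A Z) (C.ext a z * x) = z * coef a x := by
    rw [coef, ← C.proj_left, TheoryData.ext, ← mul_assoc (C.pull (snd A Z) z),
      ch_comm C (C.pull (snd A Z) z) (C.pull (fst A Z) a)]
  obtain ⟨r, hr⟩ := exists_hasDegree hm
  have h2 := hasDegree_push (C := C) (A := A) (Z := Z) hr
  rw [h1] at h2
  constructor
  · intro h3
    rw [hasDegree_unique H h3 hr]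
    exact h2
  · intro h3
    rw [hasDegree_unique H h3 h2]
    exact hr

/-- All codimensions occur. -/
lemma exists_deg {c : ℕ} (hc : c ≤ A.dim) : ∃ j, deg j = c := by
  by_contra hne
  obtain ⟨h, hh, q, hq, hhq⟩ := hC.polarized A
  have hpow : ∀ n : ℕ, h ^ n ∈ C.gr A n := by
    intro n
    induction n with
    | zero =>
      rw [pow_zero]
      exact C.one_mem A
    | succ n ih =>
      rw [pow_succ]
      have := C.mul_mem ih hh
      exact_mod_cast this
  obtain ⟨p, hp, hp1⟩ := exists_point H Z
  -- the class `h ^ c × p` is homologically trivial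
  have hx : C.Deg ((c : ℤ) + Z.dim) (C.ext (h ^ c) p) := ext_mem' (hpow c) hp
  have h1 := expand H hG hx
  have h2 : H.cl (C.ext (h ^ c) p) = 0 := by
    rw [h1, map_sum]
    apply Finset.sum_eq_zero
    intro j _
    have h3 : coef (E j) (C.ext (h ^ c) p) = 0 := by
      have hm : C.Deg ((c : ℤ) + ((A.dim : ℤ) - deg j)) (h ^ c * E j) :=
        C.mul_mem (hpow c) (hG.right j)
      have hj : deg j ≠ c := fun h => hne ⟨j, h⟩
      rcases lt_or_gt_of_ne hj with h4 | h4
      · have h5 : h ^ c * E j = 0 := hC.gr_top A _ _ hm (by omega)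
        rw [coef_ext (q := 0), zero_smul]
        rw [h5]
        exact hasDegree_zero
      · rw [coef, TheoryData.ext, ← mul_assoc, ← map_mul, ch_comm C (E j) (h ^ c), C.proj_right]
        have h5 := C.push_mem (snd A Z) (C.pull_mem (fst A Z) hm)
        rw [C.gr_neg Z _ (by rw [Obj.dim_prod]; push_cast; omega)] at h5
        rw [(Submodule.mem_bot _).1 h5, zero_mul]
    rw [h3, TheoryData.ext_zero_right, map_zero]
  -- contradiction
  obtain ⟨r, hr⟩ := exists_hasDegree (hpow A.dim)
  have hr0 : r ≠ 0 := by
    intro h1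
    subst h1
    have h2 : C.push (snd A A) (C.pull (fst A A) (h ^ A.dim)) = q • (1 : C.A A) := hhq
    rw [(hr A).1, zero_smul] at h2
    exact one_ne_zero' H A (by
      rw [← one_smul ℚ (1 : C.A A), ← inv_mul_cancel₀ hq, mul_smul, ← h2, smul_zero])
  have h4 : H.cl (coef (h ^ (A.dim - c)) (C.ext (h ^ c) p)) = 0 := by
    rw [cl_coef, h2, mul_zero, map_zero]
  have h5 : HasDegree C (h ^ c * h ^ (A.dim - c)) r := by
    rw [← pow_add, Nat.add_sub_cancel' hc]
    exact hr
  rw [coef_ext h5] at h4
  have h6 : HasDegree C (r • p) r := by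
    intro Y
    simp only [map_smul, (hp1 Y).1, (hp1 Y).2, one_smul, and_self]
  have h7 := hasDegree_zero_of_cl H (Submodule.smul_mem _ r hp) h4
  exact hr0 (hasDegree_unique H h6 h7)

/-- **Numerical and homological equivalence on the product.** -/
theorem numEqHom_iff (i : ℕ) : NumEqHom H (A.prod Z) i ↔
    ∀ m : ℕ, m ≤ i → i ≤ m + A.dim → NumEqHom H Z m := by
  constructor
  · intro hN m hmi him z hz hnum
    obtain ⟨j, hj⟩ := exists_deg H hG (c := i - m) (by omega)
    have hx : C.Deg i (C.ext (D j) z) := by
      have h1 := ext_mem' (C := C) (hG.left j) hz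
      have h2 : (deg j : ℤ) + m = i := by omega
      rwa [h2] at h1
    have h3 : H.cl (C.ext (D j) z) = 0 := by
      apply hN _ hx
      intro w hw
      have e : ((A.prod Z).dim : ℤ) - i = (A.prod Z).dim - m - deg j := by omega
      rw [e] at hw
      refine (degree_mul_ext H (hG.left j) hz hw).2 ?_
      apply hnum
      exact coef_mem (hG.left j) hw (by rw [Obj.dim_prod]; push_cast; ring)
    have h4 : H.cl (coef (E j) (C.ext (D j) z)) = 0 := by
      rw [cl_coef, h3, mul_zero, map_zero]
    rwa [coef_ext (hG.eq j), one_smul] at h4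
  · intro hN x hx hnum
    rw [expand H hG hx, map_sum]
    apply Finset.sum_eq_zero
    intro j _
    have h3 : H.cl (coef (E j) x) = 0 := by
      by_cases hj : deg j ≤ i
      · by_cases hj' : deg j ≤ A.dim
        · apply hN (i - deg j) (by omega) (by omega)
          · rw [Nat.cast_sub hj]
            exact coef_mem' H hG hx j
          · intro w hw
            rw [Nat.cast_sub hj] at hw
            have hx' : C.Deg ((A.prod Z).dim - ((Z.dim : ℤ) - (i - deg j)) - (A.dim - deg j)) x := by
              have e : ((A.prod Z).dim - ((Z.dim : ℤ) - (i - deg j)) - (A.dim - deg j)) = i := by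
                rw [Obj.dim_prod]
                push_cast
                ring
              rw [e]
              exact hx
            have h5 := (degree_mul_ext H (hG.right j) hw hx' (q := 0)).1 ?_
            · change HasDegree C (coef (E j) x * w) 0
              rw [ch_comm C]
              exact h5
            · rw [ch_comm C]
              apply hnum
              have h6 := ext_mem' (C := C) (hG.right j) hw
              have e : ((A.dim : ℤ) - deg j + (Z.dim - (i - deg j))) = (A.prod Z).dim - i := by
                rw [Obj.dim_prod]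
                push_cast
                ring
              rwa [e] at h6
        · have h4 : E j = 0 := by
            have h5 := hG.right j
            have h6 : E j ∈ C.gr A ((A.dim : ℤ) - deg j) := h5
            rw [C.gr_neg A _ (by omega)] at h6
            exact (Submodule.mem_bot _).1 h6
          rw [cl_coef, h4, map_zero, map_zero, zero_mul, map_zero]
      · have h4 : coef (E j) x ∈ C.gr Z ((i : ℤ) - deg j) := coef_mem' H hG hx j
        rw [C.gr_neg Z _ (by omega)] at h4
        rw [(Submodule.mem_bot _).1 h4, map_zero]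
    rw [TheoryData.ext, map_mul, H.cl_pull, H.cl_pull, h3, map_zero, mul_zero]

end Pool.Agent.N166.DF
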