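import Pool.Agent.N166.DF.Core
import Pool.Agent.N166.MU.Main
import Pool.Agent.W484.CK.KunnethEig

/-!
# Numerical and homological equivalence on products with constant abelian varieties
-/

set_option autoImplicit false
set_option linter.unusedSectionVars false

open CategoryTheory AlgebraicGeometry Polynomial

universe u v w

namespace Pool.Agent.N166.DF

open Pool.Agent.H914 Pool.Agent.H914.VarClass Pool.Agent.H914.VarClass.Obj Pool.Agent.W492.BB
  Pool.Agent.W550.Corr Pool.Agent.TH133 Pool.Agent.W484.CK Pool.Agent.W484.TB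
  Pool.Agent.W484.HS Pool.Agent.W521.Frob Pool.Agent.W521.Count Pool.Agent.W521.Bad
  Pool.Agent.W521.Descent Pool.Agent.W521.Density Pool.Agent.N166.MU

section base

variable {k : Type u} [Field k] {𝒱 : VarClass k} {C : TheoryData.{u, v, 0} 𝒱 ℚ}
  [hC : IsChowProj C] {K : Type w} [Field K] {H : WeilTheoryData.{u, v, w} C K} [hH : IsWeil H]
  {A Y : 𝒱.Obj}

include hC hH in
theorem eq_of_dual (hS : IsStandard H) {J : Type} {deg : J → ℕ} {D E : J → C.A A}
    (hdual : Pool.Agent.W484.CH.IsDual A Y deg D E) (j : J) : HasDegree C (D j * E j) 1 := by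
  apply hasDegree_of_push (Y := Y) hS
  · have := C.mul_mem (hdual.left j) (hdual.right j)
    rwa [add_sub_cancel] at this
  · rw [one_smul]
    exact hdual.eq j

include hC hH in
theorem ne_of_dual (hS : IsStandard H) {J : Type} {deg : J → ℕ} {D E : J → C.A A}
    (hdual : Pool.Agent.W484.CH.IsDual A Y deg D E) (i j : J) (hij : i ≠ j) :
    HasDegree C (D i * E j) 0 := by
  have h0 := hdual.ne i j hij
  have h1 : (deg i : ℤ) = deg j ∨ (deg i : ℤ) ≠ deg j := em _
  rcases h1 with h1 | h1
  · apply hasDegree_of_push (Y := Y) hS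
    · have := C.mul_mem (hdual.left i) (hdual.right j)
      rwa [h1, add_sub_cancel] at this
    · rw [zero_smul]
      exact h0
  · have hm := C.mul_mem (hdual.left i) (hdual.right j)
    rcases lt_or_gt_of_ne h1 with h2 | h2
    · intro W
      have e1 : C.push (snd A W) (C.pull (fst A W) (D i * E j)) = 0 := by
        have h4 := C.push_mem (snd A W) (C.pull_mem (fst A W) hm)
        rw [C.gr_neg W _ (by rw [Obj.dim_prod]; push_cast; omega)] at h4
        exact (Submodule.mem_bot _).1 h4
      have e2 : C.push (fst W A) (C.pull (snd W A) (D i * E j)) = 0 := by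
        have h4 := C.push_mem (fst W A) (C.pull_mem (snd W A) hm)
        rw [C.gr_neg W _ (by rw [Obj.dim_prod]; push_cast; omega)] at h4
        exact (Submodule.mem_bot _).1 h4
      rw [e1, e2, zero_smul]
      exact ⟨rfl, rfl⟩
    · rw [hC.gr_top A _ _ hm (by omega)]
      exact hasDegree_zero

omit hC in
theorem pull_cl_frob [IsChow C] {X : 𝒱.Obj} {F : X ⟶ X} {Q : ℕ} (hF : IsFrobenius C F Q) {i : ℤ}
    {y : C.A X} (hy : y ∈ C.gr X i) [CharZero K] :
    H.pull F (H.cl y) = (Q : K) ^ i • H.cl y := by
  rcases lt_or_ge i 0 with hi | hi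
  · rw [C.gr_neg _ _ hi] at hy
    rw [(Submodule.mem_bot _).1 hy, map_zero, map_zero, smul_zero]
  · obtain ⟨n, rfl⟩ := Int.eq_ofNat_of_zero_le hi
    have h1 : C.pull F y = (Q : ℚ) ^ n • y := hF.chow n y hy
    rw [← H.cl_pull, h1, Pool.Agent.W484.CH.cl_smul]
    push_cast
    rw [zpow_natCast]

end base

section

variable {I : Type} [Finite I] (g : I → ℕ) (E : IntermediateField ℚ ℂ) [FiniteDimensional ℚ E]
  {q : ℕ} (hq : 1 < q) (r : ℕ) (hr : ∀ i, r < g i)
  (x : (Σ i, Fin (g i)) → ℤ) (hx : GoodU (splitPrimes E) g q x)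

include hq hr hx

theorem numHomForRankOver_of_good : NumHomForRankOver E q r (fun i => weil q (polys g x i)) := by
  intro k _ 𝒱 C _ K _ _ _ H _ s A Y πA πY hsit k' _ 𝒱' C' _ K' _ H' _ A' Z α β γ hN' hS' hT'
    hfib hhom
  have hC1 : IsChowProj C := isChowProj_of hsit.normalized hsit.standard
  have hC2 : IsChowProj C' := isChowProj_of hN' hS'
  have hH2 : IsWeilProj H' := isWeilProj_of hS' hT'
  obtain ⟨J, hJ, deg, D, E', -, hdual, hD, -, hK⟩ := Pool.Agent.W484.CH.kunneth_eigen g E hq r hr x
    hx (isStandard_bridge hsit.standard) hsit.pos (isAbelian_bridge hsit.abelian) (πZ := πY)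
    hsit.rank
  have hG : GenHom H' A' Z deg (fun j => α (D j)) (fun j => α (E' j)) := by
    refine ⟨fun j => hfib.left _ _ (hdual.left j), fun j => ?_, fun j => ?_, fun i j hij => ?_,
      fun i x hx => ?_⟩
    · rw [hfib.dim]
      exact hfib.left _ _ (hdual.right j)
    · change HasDegree C' (C'.mul (α (D j)) (α (E' j))) 1
      rw [← hfib.mul]
      exact hfib.degree _ _ (eq_of_dual hsit.standard hdual j)
    · change HasDegree C' (C'.mul (α (D i)) (α (E' j))) 0
      rw [← hfib.mul]
      exact hfib.degree _ _ (ne_of_dual hsit.standard hdual i j hij)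
    · obtain ⟨y, hy, rfl⟩ := hfib.surjective i x hx
      refine ⟨fun j => β (coef (E' j) y), fun j => hfib.right _ _ ?_, ?_⟩
      · exact coef_mem (hdual.right j) hy (by ring)
      · have h1 := (hK i (H.cl y) (pull_cl_frob hsit.frobenius hy)).1
        have h2 := Pool.Agent.W484.CH.eq_sum_of_act h1
        have h3 : H.cl y = H.cl (∑ j, C.ext (D j) (coef (E' j) y)) := by
          rw [h2, map_sum]
          refine Finset.sum_congr rfl fun j _ => ?_
          rw [← cl_act H, ← cl_act H, Pool.Agent.W484.CH.act_extBy,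
            Pool.Agent.W484.CH.act_pairBy]
          rfl
        have h4 : H'.cl (γ (y - ∑ j, C.ext (D j) (coef (E' j) y))) = 0 := by
          apply hhom
          rw [map_sub, h3, sub_self]
        have h5 : γ (y - ∑ j, C.ext (D j) (coef (E' j) y)) =
            γ y - ∑ j, γ (C.ext (D j) (coef (E' j) y)) := by
          have h6 := map_sub (AddMonoidHom.mk' γ hfib.add) y (∑ j, C.ext (D j) (coef (E' j) y))
          have h7 := map_sum (AddMonoidHom.mk' γ hfib.add)
            (fun j => C.ext (D j) (coef (E' j) y)) Finset.univ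
          rw [h7] at h6
          exact h6
        rw [h5, map_sub, sub_eq_zero] at h4
        rw [h4]
        congr 1
        exact Finset.sum_congr rfl fun j _ => hfib.times (D j) (coef (E' j) y)
  exact ⟨⟨J, hJ, deg, fun j => α (D j), fun j => divisorProduct_fibre hfib (hD j), hG.gen⟩,
    numEqHom_iff H' hG⟩

end

end Pool.Agent.N166.DF
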